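import Pool.Agent.N822.OG.Stm

/-!
# Project OG (helper822), part STR: the rough structure
-/

set_option autoImplicit false

namespace Pool.Agent.N75.OG

open SimpleGraph Pool.Agent.N822.OG

section

variable {V : Type} [Fintype V] (G : SimpleGraph V)

open Classical in
theorem ncard_eq (B : Finset V) (s : V) :
    {y | y ∈ B ∧ G.Adj s y}.ncard = (B.filter fun y => G.Adj s y).card := by
  rw [← Set.ncard_coe_finset]
  congr 1
  ext y
  simp

/-- the completion of a small set to a configuration -/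
theorem conf_of {t T M : ℕ} (ht : 4 ≤ t) (hT : T = t + 4 * M) (A : Fin 3 → Finset V)
    (hA : ∀ i, (A i).card = T) (hAA : ∀ i j, i ≠ j → ∀ x ∈ A i, ∀ y ∈ A j, G.Adj x y)
    (i : Fin 3) (S : Finset V) (hS : S.card ≤ 4) (hSA : ∀ s ∈ S, s ∉ A i)
    (hSU : ∀ s ∈ S, ∀ j, j ≠ i → T - M ≤ {y | y ∈ A j ∧ G.Adj s y}.ncard) :
    ∃ A' : Fin 3 → Finset V, (∀ j, (A' j).card = t) ∧
      (∀ i j, i ≠ j → ∀ x ∈ A' i, ∀ y ∈ A' j, G.Adj x y) ∧ S ⊆ A' i := by
  classical
  have hB : ∀ j, ∃ B : Finset V, B ⊆ A j ∧ B.card = t ∧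
      (j ≠ i → ∀ s ∈ S, ∀ y ∈ B, G.Adj s y) := by
    intro j
    by_cases hj : j = i
    · obtain ⟨B, hB1, hB2⟩ := Finset.exists_subset_card_eq (s := A j) (n := t) (by
        rw [hA]
        omega)
      exact ⟨B, hB1, hB2, fun h => absurd hj h⟩
    · have hc : t ≤ ((A j).filter fun y => ∀ s ∈ S, G.Adj s y).card := by
        have h1 : A j ⊆ ((A j).filter fun y => ∀ s ∈ S, G.Adj s y) ∪
            S.biUnion fun s => (A j).filter fun y => ¬ G.Adj s y := by
          intro y hy
          rw [Finset.mem_union, Finset.mem_filter, Finset.mem_biUnion]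
          by_cases h : ∀ s ∈ S, G.Adj s y
          · exact Or.inl ⟨hy, h⟩
          · push Not at h
            obtain ⟨s, hs, h⟩ := h
            exact Or.inr ⟨s, hs, Finset.mem_filter.2 ⟨hy, h⟩⟩
        have h2 := (Finset.card_le_card h1).trans (Finset.card_union_le _ _)
        have h3 : (S.biUnion fun s => (A j).filter fun y => ¬ G.Adj s y).card ≤ S.card * M := by
          refine Finset.card_biUnion_le_card_mul _ _ _ fun s hs => ?_
          have h4 := hSU s hs j hj
          rw [ncard_eq] at h4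
          have h5 := Finset.card_filter_add_card_filter_not (s := A j) (fun y => G.Adj s y)
          rw [hA] at h5
          omega
        have h4 : S.card * M ≤ 4 * M := Nat.mul_le_mul_right _ hS
        rw [hA] at h2
        omega
      obtain ⟨B, hB1, hB2⟩ := Finset.exists_subset_card_eq hc
      refine ⟨B, hB1.trans (Finset.filter_subset _ _), hB2, fun _ s hs y hy => ?_⟩
      exact (Finset.mem_filter.1 (hB1 hy)).2 s hs
  choose B hB1 hB2 hB3 using hB
  obtain ⟨E, hE1, hE2⟩ := Finset.exists_subset_card_eq (s := A i) (n := t - S.card) (by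
    rw [hA]
    omega)
  have hdis : Disjoint S E := Finset.disjoint_left.2 fun s hs hsE => hSA s hs (hE1 hsE)
  have key : ∀ j, j ≠ i → ∀ x ∈ S ∪ E, ∀ y ∈ B j, G.Adj x y := by
    intro j hj x hx y hy
    rcases Finset.mem_union.1 hx with hx | hx
    · exact hB3 j hj x hx y hy
    · exact hAA i j (Ne.symm hj) x (hE1 hx) y (hB1 j hy)
  refine ⟨fun j => if j = i then S ∪ E else B j, ?_, ?_, ?_⟩
  · intro j
    by_cases hj : j = i
    · simp only [hj, if_true]
      rw [Finset.card_union_of_disjoint hdis, hE2]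
      omega
    · simp only [hj, if_false]
      exact hB2 j
  · intro j l hjl x hx y hy
    by_cases hj : j = i
    · have hl : l ≠ i := fun h => hjl (hj.trans h.symm)
      simp only [hj, if_true] at hx
      simp only [hl, if_false] at hy
      exact key l hl x hx y hy
    · simp only [hj, if_false] at hx
      by_cases hl : l = i
      · simp only [hl, if_true] at hy
        exact (key j hj y hy x hx).symm
      · simp only [hl, if_false] at hy
        exact hAA j l hjl x (hB1 j hx) y (hB1 l hy)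
  · simp only [if_true]
    exact Finset.subset_union_left

/-- every vertex has few neighbours in some class -/
theorem few {t T : ℕ} (ht : 4 ≤ t) (hG : ¬ Conf G t) (A : Fin 3 → Finset V)
    (hAA : ∀ i j, i ≠ j → ∀ x ∈ A i, ∀ y ∈ A j, G.Adj x y) (x : V) :
    ∃ i, {y | y ∈ A i ∧ G.Adj x y}.ncard < t := by
  classical
  by_contra hcon
  push Not at hcon
  have hB : ∀ i, ∃ B ⊆ (A i).filter fun y => G.Adj x y, B.card = t := by
    intro i
    have := hcon i
    rw [ncard_eq] at this
    exact Finset.exists_subset_card_eq this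
  choose B hB1 hB2 using hB
  have hBA : ∀ i, B i ⊆ A i := fun i => (hB1 i).trans (Finset.filter_subset _ _)
  have hBx : ∀ i, ∀ y ∈ B i, G.Adj x y := fun i y hy => (Finset.mem_filter.1 (hB1 i hy)).2
  have hxB : ∀ i, x ∉ B i := fun i h => G.loopless.irrefl x (hBx i x h)
  obtain ⟨C, hC1, hC2⟩ := Finset.exists_subset_card_eq (s := B 0) (n := t - 1) (by
    rw [hB2]
    omega)
  obtain ⟨b, hb, b', hb', hbb⟩ := Finset.one_lt_card.1 (show 1 < C.card by omega)
  have hxC : x ∉ C := fun h => hxB 0 (hC1 h)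
  have key : ∀ j, j ≠ 0 → ∀ u ∈ insert x C, ∀ y ∈ B j, G.Adj u y := by
    intro j hj u hu y hy
    rcases Finset.mem_insert.1 hu with rfl | hu
    · exact hBx j y hy
    · exact hAA 0 j (Ne.symm hj) u (hBA 0 (hC1 hu)) y (hBA j hy)
  apply hG
  refine ⟨fun j => if j = 0 then insert x C else B j, ?_, ?_, ?_⟩
  · intro j
    by_cases hj : j = 0
    · simp only [hj, if_true]
      rw [Finset.card_insert_of_notMem hxC, hC2]
      omega
    · simp only [hj, if_false]
      exact hB2 j
  · intro j l hjl u hu y hy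
    by_cases hj : j = 0
    · have hl : l ≠ 0 := fun h => hjl (hj.trans h.symm)
      simp only [hj, if_true] at hu
      simp only [hl, if_false] at hy
      exact key l hl u hu y hy
    · simp only [hj, if_false] at hu
      by_cases hl : l = 0
      · simp only [hl, if_true] at hy
        exact (key j hj y hy u hu).symm
      · simp only [hl, if_false] at hy
        exact hAA j l hjl u (hBA j hu) y (hBA l hy)
  · right
    left
    refine ⟨0, b, ?_, x, ?_, b', ?_, hbb, ?_, ?_⟩
    · simp only [if_true]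
      exact Finset.mem_insert_of_mem hb
    · simp only [if_true]
      exact Finset.mem_insert_self _ _
    · simp only [if_true]
      exact Finset.mem_insert_of_mem hb'
    · exact (hBx 0 b (hC1 hb)).symm
    · exact hBx 0 b' (hC1 hb')

end

theorem str (h1 : S_K3) (h2 : S_CLS) : S_STR := by
  classical
  intro t q ht hq
  obtain ⟨M, hM⟩ : ∃ M, M = 2 * q * t := ⟨_, rfl⟩
  obtain ⟨T, hT⟩ : ∃ T, T = t + 4 * M := ⟨_, rfl⟩
  obtain ⟨K, hK⟩ : ∃ K, K = 5 * T ^ 2 + 3 * T * (M + 1) := ⟨_, rfl⟩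
  obtain ⟨n₁, hn₁⟩ := h1 T
  refine ⟨max n₁ (2 * q * K), ?_⟩
  intro V _ G hn hdeg hG
  obtain ⟨A, hA, hAA⟩ := hn₁ V G ((le_max_left _ _).trans hn) hdeg
  have hfew := few (T := T) G ht hG A hAA
  obtain ⟨R, hR1, hR2⟩ := h2 V G T M t (by omega) (by omega) hdeg A hA hAA hfew
  obtain ⟨U, hU⟩ : ∃ U : Fin 3 → Finset V, ∀ i x, x ∈ U i ↔
      (x ∉ A 0 ∧ x ∉ A 1 ∧ x ∉ A 2 ∧ {y | y ∈ A i ∧ G.Adj x y}.ncard < t ∧
        ∀ j, j ≠ i → T - M ≤ {y | y ∈ A j ∧ G.Adj x y}.ncard) :=
    ⟨fun i => Finset.univ.filter fun x => (x ∉ A 0 ∧ x ∉ A 1 ∧ x ∉ A 2 ∧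
      {y | y ∈ A i ∧ G.Adj x y}.ncard < t ∧
        ∀ j, j ≠ i → T - M ≤ {y | y ∈ A j ∧ G.Adj x y}.ncard), fun i x => by simp⟩
  refine ⟨U, ?_, ?_, ?_⟩
  · intro i j hij
    rw [Finset.disjoint_left]
    intro x hxi hxj
    have h3 := ((hU i x).1 hxi).2.2.2.2 j (Ne.symm hij)
    have h4 := ((hU j x).1 hxj).2.2.2.1
    omega
  · intro i a ha b hb c hc d hd hab hcd
    rw [Finset.mem_coe] at ha hb hc hd
    by_contra hcon
    push Not at hcon
    have hUA : ∀ x ∈ U i, x ∉ A i := by
      intro x hx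
      have h3 := (hU i x).1 hx
      fin_cases i
      · exact h3.1
      · exact h3.2.1
      · exact h3.2.2.1
    have hUU : ∀ x ∈ U i, ∀ j, j ≠ i → T - M ≤ {y | y ∈ A j ∧ G.Adj x y}.ncard := fun x hx =>
      ((hU i x).1 hx).2.2.2.2
    have hSU : ∀ s ∈ ({a, b, c, d} : Finset V), s ∈ U i := by
      intro s hs
      simp only [Finset.mem_insert, Finset.mem_singleton] at hs
      rcases hs with rfl | rfl | rfl | rfl <;> assumption
    obtain ⟨A', hA1, hA2, hA3⟩ := conf_of G ht hT A hA hAA i {a, b, c, d} Finset.card_le_four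
      (fun s hs => hUA s (hSU s hs)) (fun s hs => hUU s (hSU s hs))
    have ha' : a ∈ A' i := hA3 (by simp)
    have hb' : b ∈ A' i := hA3 (by simp)
    have hc' : c ∈ A' i := hA3 (by simp)
    have hd' : d ∈ A' i := hA3 (by simp)
    apply hG
    refine ⟨A', hA1, hA2, ?_⟩
    by_cases h3 : a = c
    · subst h3
      exact Or.inr (Or.inl ⟨i, b, hb', a, ha', d, hd', hcon.1 rfl, hab.symm, hcd⟩)
    by_cases h4 : a = d
    · subst h4
      exact Or.inr (Or.inl ⟨i, b, hb', a, ha', c, hc', hcon.2 rfl, hab.symm, hcd.symm⟩)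
    by_cases h5 : b = c
    · subst h5
      exact Or.inr (Or.inl ⟨i, a, ha', b, hb', d, hd', h4, hab, hcd⟩)
    by_cases h6 : b = d
    · subst h6
      exact Or.inr (Or.inl ⟨i, a, ha', b, hb', c, hc', h3, hab, hcd.symm⟩)
    exact Or.inl ⟨i, a, ha', b, hb', c, hc', d, hd', h3, h4, h5, h6, hab, hcd⟩
  · have h3 : {v | ∀ i, v ∉ U i}.ncard ≤ R.card := by
      rw [← Set.ncard_coe_finset]
      refine Set.ncard_le_ncard ?_ (Finset.finite_toSet R)
      intro x hx
      by_contra hxR
      obtain ⟨i, hi⟩ := hR1 x hxR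
      exact hx i ((hU i x).2 hi)
    have h4 : q * {v | ∀ i, v ∉ U i}.ncard ≤ q * R.card := Nat.mul_le_mul_left _ h3
    refine h4.trans ?_
    have h5 : 2 * q * K ≤ Fintype.card V := (le_max_right _ _).trans hn
    obtain ⟨n, hn'⟩ : ∃ n, n = Fintype.card V := ⟨_, rfl⟩
    rw [← hn'] at hR2 h5 ⊢
    have h6 : (2 * q * R.card) * (M + 1) ≤ n * (M + 1) := by
      calc (2 * q * R.card) * (M + 1) = 2 * q * (R.card * (M + 1)) := by ring
        _ ≤ 2 * q * (n * t + 5 * T ^ 2 + 3 * T * (M + 1)) := Nat.mul_le_mul_left _ hR2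
        _ = n * M + 2 * q * K := by rw [hM, hK, hM]; ring
        _ ≤ n * M + n := Nat.add_le_add_left h5 _
        _ = n * (M + 1) := by ring
    have h7 := Nat.le_of_mul_le_mul_right h6 (Nat.succ_pos M)
    nlinarith [Nat.zero_le (q * R.card)]

end Pool.Agent.N75.OG
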